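import Pool.Agent.Helper61.P3.St4

/-! Project P3, module SFA: the sum over the types of the far pairs. -/

set_option autoImplicit false

open MeasureTheory Set Filter Topology
open scoped ENNReal RealInnerProductSpace

namespace Pool.Agent.Helper40.P3

open Pool.Agent.Helper61.P3
open Pool.Agent.Helper20.RG
open Pool.Agent.Helper20.EQ
open Pool.Agent.Helper68.LM (Pl BB Bd Av HL ft fm DQ)
open Pool.Agent.Helper68.EP (elt GapP)

theorem tsum_le_ite (s : ℕ) (c : ℝ≥0∞) :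
    ∑' n : ℕ, (if n ≤ s then c else 0) = ((s : ℝ≥0∞) + 1) * c := by
  rw [tsum_eq_sum (s := Finset.range (s + 1))]
  · rw [Finset.sum_congr rfl (g := fun _ => c)]
    · rw [Finset.sum_const, Finset.card_range, nsmul_eq_mul]
      push_cast
      rfl
    · intro n hn
      rw [Finset.mem_range] at hn
      rw [if_pos (by omega)]
  · intro n hn
    rw [Finset.mem_range] at hn
    rw [if_neg (by omega)]

theorem tsum_ite_const {P : Prop} [Decidable P] (g : ℕ → ℝ≥0∞) :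
    ∑' n : ℕ, (if P then g n else 0) = if P then ∑' n : ℕ, g n else 0 := by
  by_cases h : P
  · simp only [h, if_true]
  · simp only [h, if_false, tsum_zero]

theorem tsum4 (s : ℕ) (a : ℝ≥0∞) :
    ∑' n : ℕ, ∑' n' : ℕ, ∑' ρ : ℕ, ∑' ρ' : ℕ,
      (if n ≤ s ∧ n' ≤ s ∧ ρ ≤ s ∧ ρ' ≤ s then a else 0) = ((s : ℝ≥0∞) + 1) ^ 4 * a := by
  have e : ∀ n n' ρ ρ' : ℕ, (if n ≤ s ∧ n' ≤ s ∧ ρ ≤ s ∧ ρ' ≤ s then a else 0) =
      (if n ≤ s then (if n' ≤ s then (if ρ ≤ s then (if ρ' ≤ s then a else 0) else 0) else 0)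
        else 0) := by
    intro n n' ρ ρ'
    by_cases h1 : n ≤ s <;> by_cases h2 : n' ≤ s <;> by_cases h3 : ρ ≤ s <;>
      by_cases h4 : ρ' ≤ s <;> simp [h1, h2, h3, h4]
  simp only [e, tsum_ite_const, tsum_le_ite]
  ring

/-- the convergent series -/
theorem summ_far : Summable fun s : ℕ => ((s : ℝ) + 1) ^ 5 * (2 : ℝ) ^ (-((s : ℝ) / 20)) := by
  set r : ℝ := (2 : ℝ) ^ (-(1 / 20 : ℝ)) with hr
  have hr0 : 0 < r := Real.rpow_pos_of_pos (by norm_num) _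
  have hr1 : r < 1 := by
    rw [hr]
    exact Real.rpow_lt_one_of_one_lt_of_neg (by norm_num) (by norm_num)
  have h1 : Summable fun n : ℕ => ((n : ℝ)) ^ 5 * r ^ n :=
    summable_pow_mul_geometric_of_norm_lt_one 5 (by
      rw [Real.norm_eq_abs, abs_of_pos hr0]; exact hr1)
  have h2 := ((summable_nat_add_iff 1).2 h1).mul_left r⁻¹
  refine h2.congr fun s => ?_
  have e : (2 : ℝ) ^ (-((s : ℝ) / 20)) = r ^ s := by
    rw [hr, ← Real.rpow_natCast, ← Real.rpow_mul (by norm_num)]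
    congr 1
    ring
  rw [e, pow_succ r s]
  push_cast
  field_simp

theorem hSFA (hFAS : Pool.Agent.Helper61.P3.StFAS) : Pool.Agent.Helper61.P3.StSFA := by
  intro φ τ A c hG hA hGap
  obtain ⟨C, U₀, hC1, h⟩ := hFAS φ τ A c hG hA hGap
  set b : ℕ → ℝ := fun s => ((s : ℝ) + 1) ^ 5 * (2 : ℝ) ^ (-((s : ℝ) / 20)) with hb
  have hb0 : ∀ s, 0 ≤ b s := fun s => by
    simp only [hb]; positivity
  set K : ℝ := ∑' s, b s with hK
  have hK0 : 0 ≤ K := tsum_nonneg hb0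
  have hC0 : 0 ≤ C := by linarith
  have hCC : C ≤ C * (1 + K) := by nlinarith
  refine ⟨C * (1 + K), U₀, by linarith, ?_⟩
  intro R₀ f hR hf hf0
  have hR' : C ≤ R₀ := hCC.trans hR
  set I : ℝ≥0∞ := ∫⁻ x, ENNReal.ofReal (f x) ^ (3 : ℝ) with hI
  -- the sets
  set B : ℤ → ℕ → ℕ → ℕ → ℕ → ℕ → ℕ → ℤ → Set Pl := fun l s n n' ρ ρ' u k =>
    {x | Gd R₀ l f x ∧
          mt (Vs u) u n ρ / 2 ≤ ((HP c φ τ u (et ρ) k (lev f (l - 1 + n)) x).ncard : ℝ) ∧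
          TY c φ τ (Vs (u + s)) (u + s) n' ρ' k l f x} with hB
  set F : ℤ → ℕ → ℕ → ℕ → ℕ → ℕ → ℝ≥0∞ := fun l s n n' ρ ρ' =>
    ∑' u : ℕ, (if U₀ ≤ u ∧ 8 * u < s ∧ 10000 * n < u then
      ∑' k : ℤ, volume (B l s n n' ρ ρ' u k) else 0) with hF
  have hvol : ∀ l : ℤ, volume {x | Gd R₀ l f x ∧ ∃ (k : ℤ) (s u n n' ρ ρ' : ℕ),
        U₀ ≤ u ∧ 8 * u < s ∧ 10000 * n < u ∧
          mt (Vs u) u n ρ / 2 ≤ ((HP c φ τ u (et ρ) k (lev f (l - 1 + n)) x).ncard : ℝ) ∧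
          TY c φ τ (Vs (u + s)) (u + s) n' ρ' k l f x} ≤
      ∑' s : ℕ, ∑' n : ℕ, ∑' n' : ℕ, ∑' ρ : ℕ, ∑' ρ' : ℕ, F l s n n' ρ ρ' := by
    intro l
    have hsub : {x | Gd R₀ l f x ∧ ∃ (k : ℤ) (s u n n' ρ ρ' : ℕ),
        U₀ ≤ u ∧ 8 * u < s ∧ 10000 * n < u ∧
          mt (Vs u) u n ρ / 2 ≤ ((HP c φ τ u (et ρ) k (lev f (l - 1 + n)) x).ncard : ℝ) ∧
          TY c φ τ (Vs (u + s)) (u + s) n' ρ' k l f x} ⊆
        ⋃ s : ℕ, ⋃ n : ℕ, ⋃ n' : ℕ, ⋃ ρ : ℕ, ⋃ ρ' : ℕ, ⋃ u : ℕ,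
          ⋃ (_ : U₀ ≤ u ∧ 8 * u < s ∧ 10000 * n < u), ⋃ k : ℤ, B l s n n' ρ ρ' u k := by
      rintro x ⟨hx, k, s, u, n, n', ρ, ρ', h1, h2, h3, h4, h5⟩
      simp only [Set.mem_iUnion]
      exact ⟨s, n, n', ρ, ρ', u, ⟨h1, h2, h3⟩, k, hx, h4, h5⟩
    refine (measure_mono hsub).trans ?_
    refine (measure_iUnion_le _).trans (ENNReal.tsum_le_tsum fun s => ?_)
    refine (measure_iUnion_le _).trans (ENNReal.tsum_le_tsum fun n => ?_)
    refine (measure_iUnion_le _).trans (ENNReal.tsum_le_tsum fun n' => ?_)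
    refine (measure_iUnion_le _).trans (ENNReal.tsum_le_tsum fun ρ => ?_)
    refine (measure_iUnion_le _).trans (ENNReal.tsum_le_tsum fun ρ' => ?_)
    refine (measure_iUnion_le _).trans (ENNReal.tsum_le_tsum fun u => ?_)
    by_cases hc : U₀ ≤ u ∧ 8 * u < s ∧ 10000 * n < u
    · simp only [hc, and_self, Set.iUnion_true, if_true]
      exact measure_iUnion_le _
    · rw [if_neg hc]
      simp only [hc, Set.iUnion_false, measure_empty, le_refl]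
  have hone : ∀ s n n' ρ ρ' : ℕ,
      ∑' l : ℤ, ENNReal.ofReal ((2 : ℝ) ^ (3 * l)) * F l s n n' ρ ρ' ≤
        (if n ≤ s ∧ n' ≤ s ∧ ρ ≤ s ∧ ρ' ≤ s then
          ENNReal.ofReal (C * ((s : ℝ) + 1) * (2 : ℝ) ^ (-((s : ℝ) / 20))) * I else 0) := by
    intro s n n' ρ ρ'
    have := h R₀ s n n' ρ ρ' f hR' hf hf0
    refine this.trans (le_of_eq ?_)
    by_cases hc : n ≤ s ∧ n' ≤ s ∧ ρ ≤ s ∧ ρ' ≤ s
    · rw [if_pos hc, if_pos hc]
    · rw [if_neg hc, if_neg hc, zero_mul]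
  calc ∑' l : ℤ, ENNReal.ofReal ((2 : ℝ) ^ (3 * l)) * volume {x | Gd R₀ l f x ∧
          ∃ (k : ℤ) (s u n n' ρ ρ' : ℕ), U₀ ≤ u ∧ 8 * u < s ∧ 10000 * n < u ∧
          mt (Vs u) u n ρ / 2 ≤ ((HP c φ τ u (et ρ) k (lev f (l - 1 + n)) x).ncard : ℝ) ∧
          TY c φ τ (Vs (u + s)) (u + s) n' ρ' k l f x}
      ≤ ∑' l : ℤ, ∑' s : ℕ, ∑' n : ℕ, ∑' n' : ℕ, ∑' ρ : ℕ, ∑' ρ' : ℕ,
          ENNReal.ofReal ((2 : ℝ) ^ (3 * l)) * F l s n n' ρ ρ' := by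
        refine ENNReal.tsum_le_tsum fun l => ?_
        refine (mul_le_mul_right (hvol l) _).trans (le_of_eq ?_)
        simp only [ENNReal.tsum_mul_left]
    _ = ∑' s : ℕ, ∑' n : ℕ, ∑' n' : ℕ, ∑' ρ : ℕ, ∑' ρ' : ℕ, ∑' l : ℤ,
          ENNReal.ofReal ((2 : ℝ) ^ (3 * l)) * F l s n n' ρ ρ' := by
        rw [ENNReal.tsum_comm]
        refine tsum_congr fun s => ?_
        rw [ENNReal.tsum_comm]
        refine tsum_congr fun n => ?_
        rw [ENNReal.tsum_comm]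
        refine tsum_congr fun n' => ?_
        rw [ENNReal.tsum_comm]
        refine tsum_congr fun ρ => ?_
        rw [ENNReal.tsum_comm]
    _ ≤ ∑' s : ℕ, ∑' n : ℕ, ∑' n' : ℕ, ∑' ρ : ℕ, ∑' ρ' : ℕ,
          (if n ≤ s ∧ n' ≤ s ∧ ρ ≤ s ∧ ρ' ≤ s then
            ENNReal.ofReal (C * ((s : ℝ) + 1) * (2 : ℝ) ^ (-((s : ℝ) / 20))) * I else 0) :=
        ENNReal.tsum_le_tsum fun s => ENNReal.tsum_le_tsum fun n => ENNReal.tsum_le_tsum fun n' =>
          ENNReal.tsum_le_tsum fun ρ => ENNReal.tsum_le_tsum fun ρ' => hone s n n' ρ ρ'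
    _ = ∑' s : ℕ, ENNReal.ofReal (C * b s) * I := by
        refine tsum_congr fun s => ?_
        rw [tsum4, ← mul_assoc]
        congr 1
        have e : ((s : ℝ≥0∞) + 1) ^ 4 = ENNReal.ofReal (((s : ℝ) + 1) ^ 4) := by
          rw [ENNReal.ofReal_pow (by positivity), ENNReal.ofReal_add (by positivity) (by norm_num),
            ENNReal.ofReal_natCast, ENNReal.ofReal_one]
        rw [e, ← ENNReal.ofReal_mul (by positivity)]
        congr 1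
        simp only [hb]
        ring
    _ = ENNReal.ofReal (C * K) * I := by
        rw [ENNReal.tsum_mul_right]
        congr 1
        rw [hK, ← tsum_mul_left, ENNReal.ofReal_tsum_of_nonneg
          (fun s => mul_nonneg hC0 (hb0 s)) (summ_far.mul_left C)]
    _ ≤ ENNReal.ofReal (C * (1 + K)) * I := by
        refine mul_le_mul_left (ENNReal.ofReal_le_ofReal ?_) _
        nlinarith

end Pool.Agent.Helper40.P3
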